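import Pool.Agent.Helper66.Stz.Arith

set_option autoImplicit false

/-!
# The number of reduced forms of discriminant `-D`, `D ≤ 4 p`

There are at most `C p ^ (5 / 6)` triples `(a, b, c)` of integers with `|b| ≤ a ≤ c` and
`4 a c - b ^ 2 = D`, if `0 < D ≤ 4 p`.
-/

namespace Pool.Agent.R7h27

open Finset

/-- `(a, b, c)` is a reduced form with `4 a c - b² = D`. -/
def IsRed (D : ℤ) (f : ℤ × ℤ × ℤ) : Prop :=
  |f.2.1| ≤ f.1 ∧ f.1 ≤ f.2.2 ∧ 4 * f.1 * f.2.2 - f.2.1 ^ 2 = D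

theorem IsRed.bounds {D : ℤ} {f : ℤ × ℤ × ℤ} (hD : 0 < D) (h : IsRed D f) :
    0 < f.1 ∧ f.1 ^ 2 ≤ D ∧ f.2.1 ^ 2 ≤ D := by
  obtain ⟨h1, h2, h3⟩ := h
  obtain ⟨a, b, c⟩ := f
  simp only at h1 h2 h3 ⊢
  have ha0 : 0 ≤ a := (abs_nonneg b).trans h1
  have hb : b ^ 2 ≤ a ^ 2 := by
    rw [← sq_abs b]; exact pow_le_pow_left₀ (abs_nonneg b) h1 2
  have hac : a * a ≤ a * c := mul_le_mul_of_nonneg_left h2 ha0
  have ha : a ≠ 0 := by
    rintro rfl
    nlinarith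
  refine ⟨lt_of_le_of_ne ha0 (Ne.symm ha), by nlinarith, by nlinarith⟩

theorem card_red : ∃ C : ℝ, 0 < C ∧ ∀ (p : ℕ), 1 ≤ p → ∀ D : ℤ, 0 < D → D ≤ 4 * p →
    ∀ S : Finset (ℤ × ℤ × ℤ), (∀ f ∈ S, IsRed D f) → (S.card : ℝ) ≤ C * (p : ℝ) ^ (5 / 6 : ℝ) := by
  classical
  obtain ⟨C, hC, hdiv⟩ := Stz.divisor_bound (1 / 3) (by norm_num)
  refine ⟨5 * (C * 2), by positivity, ?_⟩
  intro p hp D hD hDp S hS
  set M : ℕ := Nat.sqrt (4 * p) with hM
  have hMsq : M * M ≤ 4 * p := Nat.sqrt_le (4 * p)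
  -- every fibre over `b` is small
  have hfib : ∀ b ∈ Finset.Icc (-(M : ℤ)) M,
      ((S.filter fun f => f.2.1 = b).card : ℝ) ≤ C * (2 * (p : ℝ)) ^ (1 / 3 : ℝ) := by
    intro b hb
    rw [Finset.mem_Icc] at hb
    have hb2 : b ^ 2 ≤ 4 * p := by
      have h1 : b ^ 2 ≤ (M : ℤ) ^ 2 := by nlinarith
      have h2 : ((M : ℤ)) ^ 2 ≤ 4 * p := by rw [pow_two]; exact_mod_cast hMsq
      linarith
    set m : ℕ := ((D + b ^ 2) / 4).toNat with hm
    rcases (S.filter fun f => f.2.1 = b).eq_empty_or_nonempty with he | ⟨f0, hf0⟩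
    · rw [he]; simp only [Finset.card_empty, Nat.cast_zero]; positivity
    have hval : ∀ f ∈ S.filter fun f => f.2.1 = b, f.1 * f.2.2 = (m : ℤ) ∧ 0 < f.1 ∧ 0 < f.2.2 := by
      intro f hf
      rw [Finset.mem_filter] at hf
      have hr := hS f hf.1
      obtain ⟨hr1, hr2, hr3⟩ := hr
      have hb' := IsRed.bounds hD (hS f hf.1)
      have h4 : f.1 * f.2.2 = (D + b ^ 2) / 4 := by
        have : D + b ^ 2 = 4 * (f.1 * f.2.2) := by rw [← hf.2]; linear_combination -hr3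
        rw [this]; simp
      have hpos : 0 < f.1 * f.2.2 := mul_pos hb'.1 (lt_of_lt_of_le hb'.1 hr2)
      refine ⟨?_, hb'.1, lt_of_lt_of_le hb'.1 hr2⟩
      rw [hm, Int.toNat_of_nonneg (by rw [← h4]; exact hpos.le), h4]
    have hm0 : 1 ≤ m := by
      obtain ⟨h1, h2, h3⟩ := hval f0 hf0
      have : (0 : ℤ) < m := by rw [← h1]; exact mul_pos h2 h3
      exact_mod_cast this
    have hm2 : m ≤ 2 * p := by
      have h5 : (m : ℤ) ≤ 2 * p := by
        rw [hm]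
        have : (D + b ^ 2) / 4 ≤ 2 * p := by omega
        have h0 : (0 : ℤ) ≤ 2 * p := by positivity
        omega
      exact_mod_cast h5
    have hcard : (S.filter fun f => f.2.1 = b).card ≤ m.divisors.card := by
      apply Finset.card_le_card_of_injOn (fun f => f.1.natAbs)
      · intro f hf
        obtain ⟨h1, h2, h3⟩ := hval f hf
        simp only [Finset.mem_coe, Nat.mem_divisors]
        refine ⟨?_, by omega⟩
        have : (f.1.natAbs : ℤ) ∣ (m : ℤ) := by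
          rw [← h1, Int.natCast_natAbs, abs_dvd]; exact dvd_mul_right _ _
        exact_mod_cast this
      · intro f hf g hg hfg
        simp only at hfg
        obtain ⟨h1, h2, h3⟩ := hval f hf
        obtain ⟨k1, k2, k3⟩ := hval g hg
        have hab : f.1 = g.1 := by omega
        have hb1 : f.2.1 = g.2.1 := by
          have h6 := (Finset.mem_filter.mp (Finset.mem_coe.mp hf)).2
          have h7 := (Finset.mem_filter.mp (Finset.mem_coe.mp hg)).2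
          rw [h6, h7]
        have hc : f.2.2 = g.2.2 := by
          have : f.1 * f.2.2 = f.1 * g.2.2 := by rw [h1, hab, k1]
          exact mul_left_cancel₀ h2.ne' this
        exact Prod.ext hab (Prod.ext hb1 hc)
    calc ((S.filter fun f => f.2.1 = b).card : ℝ) ≤ (m.divisors.card : ℝ) := by exact_mod_cast hcard
      _ ≤ C * (m : ℝ) ^ (1 / 3 : ℝ) := hdiv m hm0
      _ ≤ C * (2 * (p : ℝ)) ^ (1 / 3 : ℝ) := by
        apply mul_le_mul_of_nonneg_left _ hC.le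
        apply Real.rpow_le_rpow (by positivity) _ (by norm_num)
        exact_mod_cast hm2
  -- the fibres cover `S`
  have hcov : (S.card : ℝ) ≤ ∑ b ∈ Finset.Icc (-(M : ℤ)) M,
      ((S.filter fun f => f.2.1 = b).card : ℝ) := by
    have h1 : S.card = ∑ b ∈ Finset.Icc (-(M : ℤ)) M, (S.filter fun f => f.2.1 = b).card := by
      apply Finset.card_eq_sum_card_fiberwise
      intro f hf
      have hb := (IsRed.bounds hD (hS f hf)).2.2
      have h2 : f.2.1.natAbs * f.2.1.natAbs ≤ 4 * p := by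
        have h3 : ((f.2.1.natAbs * f.2.1.natAbs : ℕ) : ℤ) ≤ 4 * p := by
          push_cast
          rw [abs_mul_abs_self]
          nlinarith
        exact_mod_cast h3
      have h4 : f.2.1.natAbs ≤ M := by
        rw [hM, Nat.le_sqrt]; exact h2
      simp only [Finset.coe_Icc, Set.mem_Icc]
      omega
    rw [h1]; push_cast; exact le_rfl
  have hp1 : (1 : ℝ) ≤ p := by exact_mod_cast hp
  have hMle : (M : ℝ) ≤ 2 * (p : ℝ) ^ (1 / 2 : ℝ) := by
    rw [← Real.sqrt_eq_rpow]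
    have h1 : (M : ℝ) * M ≤ 4 * p := by exact_mod_cast hMsq
    have h2 : Real.sqrt (4 * p) = 2 * Real.sqrt p := by
      rw [Real.sqrt_mul (by norm_num), show (4 : ℝ) = 2 ^ 2 by norm_num, Real.sqrt_sq (by norm_num)]
    rw [← h2]
    exact Real.le_sqrt_of_sq_le (by rw [pow_two]; exact h1)
  calc (S.card : ℝ) ≤ ∑ b ∈ Finset.Icc (-(M : ℤ)) M,
        ((S.filter fun f => f.2.1 = b).card : ℝ) := hcov
    _ ≤ ∑ b ∈ Finset.Icc (-(M : ℤ)) M, C * (2 * (p : ℝ)) ^ (1 / 3 : ℝ) := Finset.sum_le_sum hfib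
    _ = (2 * M + 1) * (C * (2 * (p : ℝ)) ^ (1 / 3 : ℝ)) := by
      rw [Finset.sum_const, nsmul_eq_mul, Int.card_Icc]
      congr 1
      have : ((M : ℤ) + 1 - -(M : ℤ)).toNat = 2 * M + 1 := by omega
      rw [this]; push_cast; ring
    _ ≤ (5 * (p : ℝ) ^ (1 / 2 : ℝ)) * (C * (2 * (p : ℝ) ^ (1 / 3 : ℝ))) := by
      have h1 : (1 : ℝ) ≤ (p : ℝ) ^ (1 / 2 : ℝ) := Real.one_le_rpow hp1 (by norm_num)
      have h2 : (2 * (p : ℝ)) ^ (1 / 3 : ℝ) ≤ 2 * (p : ℝ) ^ (1 / 3 : ℝ) := by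
        rw [Real.mul_rpow (by norm_num) (by positivity)]
        apply mul_le_mul_of_nonneg_right _ (by positivity)
        calc (2 : ℝ) ^ (1 / 3 : ℝ) ≤ 2 ^ (1 : ℝ) :=
              Real.rpow_le_rpow_of_exponent_le (by norm_num) (by norm_num)
          _ = 2 := Real.rpow_one 2
      apply mul_le_mul
      · linarith
      · exact mul_le_mul_of_nonneg_left h2 hC.le
      · positivity
      · positivity
    _ = 5 * (C * 2) * (p : ℝ) ^ (5 / 6 : ℝ) := by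
      have : (p : ℝ) ^ (5 / 6 : ℝ) = (p : ℝ) ^ (1 / 2 : ℝ) * (p : ℝ) ^ (1 / 3 : ℝ) := by
        rw [← Real.rpow_add (by linarith)]; norm_num
      rw [this]; ring

/-- the same for the matrices of trace `t` and determinant `p` with a reduced fixed point -/
theorem card_mat : ∃ C : ℝ, 0 < C ∧ ∀ (p : ℕ), 1 ≤ p → ∀ t : ℤ, t ^ 2 < 4 * p →
    ∀ S : Finset (ℤ × ℤ × ℤ × ℤ), (∀ A ∈ S, A.1 + A.2.2.2 = t ∧ A.1 * A.2.2.2 - A.2.1 * A.2.2.1 = p ∧
      |A.1 - A.2.2.2| ≤ A.2.2.1 ∧ A.2.2.1 ≤ -A.2.1) →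
    (S.card : ℝ) ≤ C * (p : ℝ) ^ (5 / 6 : ℝ) := by
  classical
  obtain ⟨C, hC, h⟩ := card_red
  refine ⟨C, hC, ?_⟩
  intro p hp t ht S hS
  have hinj : Set.InjOn (fun A : ℤ × ℤ × ℤ × ℤ => (A.2.2.1, A.1 - A.2.2.2, -A.2.1)) S := by
    rintro ⟨a, b, c, d⟩ hA ⟨a', b', c', d'⟩ hB hAB
    have h1 := (hS _ (Finset.mem_coe.mp hA)).1
    have h2 := (hS _ (Finset.mem_coe.mp hB)).1
    simp only [Prod.mk.injEq] at hAB h1 h2 ⊢
    obtain ⟨e1, e2, e3⟩ := hAB
    refine ⟨by omega, by omega, by omega, by omega⟩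
  rw [← Finset.card_image_of_injOn hinj]
  apply h p hp (4 * p - t ^ 2) (by linarith) (by nlinarith [sq_nonneg t])
  intro f hf
  obtain ⟨⟨a, b, c, d⟩, hA, rfl⟩ := Finset.mem_image.mp hf
  obtain ⟨h1, h2, h3, h4⟩ := hS _ hA
  simp only at h1 h2 h3 h4
  refine ⟨h3, h4, ?_⟩
  simp only
  rw [← h1]
  linear_combination 4 * h2

end Pool.Agent.R7h27
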