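import Mathlib

set_option autoImplicit false

/-!
# Traces with the same Frobenius field

For a prime `p` and an integer `t0` with `t0 ^ 2 < 4 p` the integers `t` with `t ^ 2 < 4 p` for which
`(t0 ^ 2 - 4 p) (t ^ 2 - 4 p)` is a square are at most `81` in number.
-/

namespace Pool.Agent.R7h27

theorem trace_key {p : ℕ} (hp : p.Prime) {t0 t D f u k ε : ℤ} (hε : ε = 1 ∨ ε = -1)
    (h0 : t0 ^ 2 + D * f ^ 2 = 4 * p) (h1 : t ^ 2 + D * u ^ 2 = 4 * p)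
    (hk : t0 * u - ε * (t * f) = p * k) :
    ∃ l : ℤ, l ^ 2 + D * k ^ 2 = 16 ∧ 4 * t = l * t0 - ε * k * D * f := by
  have hp0 : (p : ℤ) ≠ 0 := by exact_mod_cast hp.ne_zero
  have hε2 : ε ^ 2 = 1 := by rcases hε with h | h <;> rw [h] <;> norm_num
  have h2 : (t0 * t + ε * D * f * u) ^ 2 + D * (t0 * u - ε * (t * f)) ^ 2 = 16 * (p : ℤ) ^ 2 := by
    have : (t0 * t + ε * D * f * u) ^ 2 + D * (t0 * u - ε * (t * f)) ^ 2 =
        (t0 ^ 2 + D * f ^ 2) * (t ^ 2 + D * u ^ 2) +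
          (ε ^ 2 - 1) * (D ^ 2 * f ^ 2 * u ^ 2 + D * t ^ 2 * f ^ 2) := by ring
    rw [this, h0, h1, hε2]; ring
  rw [hk] at h2
  have h3 : (p : ℤ) ∣ (t0 * t + ε * D * f * u) := by
    have hpp : Prime (p : ℤ) := Nat.prime_iff_prime_int.mp hp
    apply hpp.dvd_of_dvd_pow (n := 2)
    exact ⟨(16 - D * k ^ 2) * p, by linear_combination h2⟩
  obtain ⟨l, hl⟩ := h3
  refine ⟨l, ?_, ?_⟩
  · rw [hl] at h2
    have : (p : ℤ) ^ 2 * (l ^ 2 + D * k ^ 2) = (p : ℤ) ^ 2 * 16 := by linear_combination h2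
    exact mul_left_cancel₀ (pow_ne_zero 2 hp0) this
  · have h4 : (p : ℤ) * (4 * t) = p * (l * t0 - ε * k * D * f) := by
      linear_combination (-t) * h0 + t0 * hl - ε * D * f * hk -
        (D * f ^ 2 * t) * hε2
    exact mul_left_cancel₀ hp0 h4

theorem exists_disc {n : ℤ} (hn : 0 < n) :
    ∃ D f : ℤ, 0 < D ∧ n = D * f ^ 2 ∧ ∀ m : ℤ, IsSquare (n * m) → ∃ u, m = D * u ^ 2 := by
  obtain ⟨N, rfl⟩ := Int.eq_ofNat_of_zero_le hn.le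
  obtain ⟨a, b, hab, hsq⟩ := Nat.sq_mul_squarefree N
  have hN : 0 < N := by exact_mod_cast hn
  have hb : b ≠ 0 := by
    rintro rfl
    rw [← hab] at hN; simp at hN
  have ha : a ≠ 0 := by
    rintro rfl
    rw [← hab] at hN; simp at hN
  have haZ : (a : ℤ) ≠ 0 := by exact_mod_cast ha
  have hbZ : (b : ℤ) ≠ 0 := by exact_mod_cast hb
  refine ⟨a, b, by positivity, ?_, ?_⟩
  · rw [← hab]; push_cast; ring
  intro m h
  obtain ⟨s, hs⟩ := h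
  have hNab : ((N : ℕ) : ℤ) = (b : ℤ) ^ 2 * a := by exact_mod_cast hab.symm
  have h1 : ((b : ℤ)) ^ 2 ∣ s ^ 2 := ⟨a * m, by
    rw [pow_two s, ← hs, hNab]; ring⟩
  have h2 : (b : ℤ) ∣ s := (Int.pow_dvd_pow_iff two_ne_zero).mp h1
  obtain ⟨s', rfl⟩ := h2
  have h3 : (a : ℤ) * m = s' ^ 2 := by
    have h4 : (b : ℤ) ^ 2 * (a * m) = (b : ℤ) ^ 2 * s' ^ 2 := by
      have h5 : ((N : ℕ) : ℤ) * m = b * s' * (b * s') := hs
      rw [hNab] at h5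
      linear_combination h5
    exact mul_left_cancel₀ (pow_ne_zero 2 hbZ) h4
  have hsqZ : Squarefree (a : ℤ) := Int.squarefree_natCast.mpr hsq
  have h5 : (a : ℤ) ∣ s' := by
    have h6 : (a : ℤ) ∣ s' ^ 2 := ⟨m, h3.symm⟩
    exact (hsqZ.dvd_pow_iff_dvd two_ne_zero).mp h6
  obtain ⟨u, rfl⟩ := h5
  refine ⟨u, ?_⟩
  have h7 : (a : ℤ) * m = a * (a * u ^ 2) := by rw [h3]; ring
  exact mul_left_cancel₀ haZ h7

theorem sq_le_sixteen {l D k : ℤ} (hD : 0 < D) (h : l ^ 2 + D * k ^ 2 = 16) :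
    l ∈ Finset.Icc (-4 : ℤ) 4 ∧ k ∈ Finset.Icc (-4 : ℤ) 4 := by
  have h1 : l ^ 2 ≤ 16 := by nlinarith [sq_nonneg k]
  have h2 : k ^ 2 ≤ 16 := by nlinarith [sq_nonneg k, sq_nonneg l]
  constructor
  · rw [Finset.mem_Icc]; constructor <;> nlinarith
  · rw [Finset.mem_Icc]; constructor <;> nlinarith

/-- **The traces with a given Frobenius field.** -/
theorem card_traces {p : ℕ} (hp : p.Prime) {t0 : ℤ} (h0 : t0 ^ 2 < 4 * p) (S : Finset ℤ)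
    (hS : ∀ t ∈ S, t ^ 2 < 4 * p ∧ IsSquare ((t0 ^ 2 - 4 * p) * (t ^ 2 - 4 * p))) :
    S.card ≤ 81 := by
  classical
  have hpZ : Prime (p : ℤ) := Nat.prime_iff_prime_int.mp hp
  obtain ⟨D, f, hD0, hn, hDm⟩ := exists_disc (n := 4 * (p : ℤ) - t0 ^ 2) (by linarith)
  have key : ∀ t ∈ S, ∃ l ∈ Finset.Icc (-4 : ℤ) 4, ∃ k ∈ Finset.Icc (-4 : ℤ) 4,
      4 * t = l * t0 + k * D * f := by
    intro t ht
    obtain ⟨ht1, ht2⟩ := hS t ht
    have h3 : IsSquare ((4 * (p : ℤ) - t0 ^ 2) * (4 * (p : ℤ) - t ^ 2)) := by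
      have : (4 * (p : ℤ) - t0 ^ 2) * (4 * (p : ℤ) - t ^ 2) =
          (t0 ^ 2 - 4 * p) * (t ^ 2 - 4 * p) := by ring
      rw [this]; exact ht2
    obtain ⟨u, hu⟩ := hDm _ h3
    have e0 : t0 ^ 2 + D * f ^ 2 = 4 * p := by linarith
    have e1 : t ^ 2 + D * u ^ 2 = 4 * p := by linarith
    have h4 : (p : ℤ) ∣ (t0 * u - t * f) * (t0 * u + t * f) :=
      ⟨4 * (u ^ 2 - f ^ 2), by linear_combination u ^ 2 * e0 - f ^ 2 * e1⟩
    rcases hpZ.dvd_or_dvd h4 with h5 | h5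
    · obtain ⟨k, hk⟩ := h5
      obtain ⟨l, hl1, hl2⟩ := trace_key (ε := 1) hp (Or.inl rfl) e0 e1 (by rw [one_mul]; exact hk)
      obtain ⟨hl, hk'⟩ := sq_le_sixteen hD0 hl1
      rw [Finset.mem_Icc] at hk'
      exact ⟨l, hl, -k, Finset.mem_Icc.mpr ⟨by linarith, by linarith⟩, by rw [hl2]; ring⟩
    · obtain ⟨k, hk⟩ := h5
      obtain ⟨l, hl1, hl2⟩ := trace_key (ε := -1) hp (Or.inr rfl) e0 e1
        (by rw [← hk]; ring)
      obtain ⟨hl, hk'⟩ := sq_le_sixteen hD0 hl1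
      exact ⟨l, hl, k, hk', by rw [hl2]; ring⟩
  have h1 : S ⊆ ((Finset.Icc (-4 : ℤ) 4) ×ˢ (Finset.Icc (-4 : ℤ) 4)).image
      fun q => (q.1 * t0 + q.2 * D * f) / 4 := by
    intro t ht
    obtain ⟨l, hl, k, hk, h⟩ := key t ht
    rw [Finset.mem_image]
    refine ⟨(l, k), Finset.mem_product.mpr ⟨hl, hk⟩, ?_⟩
    change (l * t0 + k * D * f) / 4 = t
    rw [← h]; simp
  calc S.card ≤ _ := Finset.card_le_card h1
    _ ≤ _ := Finset.card_image_le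
    _ = 81 := by rw [Finset.card_product]; rfl

end Pool.Agent.R7h27
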